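import Mathlib

set_option autoImplicit false

open MeasureTheory
open scoped ENNReal

namespace Pool.Agent.P95ea62

/-- The homogeneous Gagliardo seminorm of order `s` and exponent `p` on `ℝ^N`, with values in
`[0, ∞]` and no normalising constant. -/
noncomputable def gagliardo {N : ℕ} {F : Type} [NormedAddCommGroup F] (s p : ℝ)
    (f : EuclideanSpace ℝ (Fin N) → F) : ℝ≥0∞ :=
  (∫⁻ x, ∫⁻ y, ‖f x - f y‖ₑ ^ p / ‖x - y‖ₑ ^ ((N : ℝ) + s * p)) ^ (1 / p)

end Pool.Agent.P95ea62
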