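import Pool.Agent.P.MP_95ea62_an.Sharp
import Pool.Agent.P.MP_95ea62_an.Defs

/-! The two halves in the form of the problem. -/

set_option autoImplicit false

open MeasureTheory Set Metric Module Filter Topology
open scoped ENNReal NNReal SchwartzMap

namespace Pool.Agent.P95ea62

variable {N : ℕ} {F : Type} [NormedAddCommGroup F] {p : ℝ}

theorem weight_eq [NeZero N] (hp : 1 ≤ p) {f : EuclideanSpace ℝ (Fin N) → F} (hf : Continuous f)
    {s : ℝ} (h0 : 0 < s) (h1 : s < 1) :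
    ENNReal.ofReal (min s (1 - s) ^ (1 / p)) * gagliardo s p f = X volume p f s ^ (1 / p) := by
  have hw : 0 ≤ min s (1 - s) := le_min h0.le (by linarith)
  have hq : 0 ≤ 1 / p := by positivity
  rw [gagliardo, double_eq volume hf, X, I_mul volume hw, ENNReal.mul_rpow_of_nonneg _ _ hq,
    ENNReal.ofReal_rpow_of_nonneg hw hq, finrank_euclideanSpace_fin]

theorem norm_eq (hp : 1 ≤ p) (f : EuclideanSpace ℝ (Fin N) → F) :
    eLpNorm f (ENNReal.ofReal p) volume = (∫⁻ x, ‖f x‖ₑ ^ p) ^ (1 / p) := by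
  rw [eLpNorm_eq_lintegral_rpow_enorm_toReal (by simp; linarith) ENNReal.ofReal_ne_top,
    ENNReal.toReal_ofReal (by linarith)]

theorem upper' [NeZero N] (hp : 1 ≤ p) {f : EuclideanSpace ℝ (Fin N) → F} (hf : Continuous f)
    {A : ℝ≥0} (hA : 2 * Real.exp (1 / 2) *
      (N * volume.real (ball (0 : EuclideanSpace ℝ (Fin N)) 1) / p) ^ (1 / p) ≤ A)
    {s t : ℝ} (hs : 0 < s) (hst : s < t) (ht : t < 1) :
    X volume p f s ^ (1 / p) ≤ A * (∫⁻ x, ‖f x‖ₑ ^ p) ^ (1 / p) + X volume p f t ^ (1 / p) := by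
  have hp0 : 0 < p := by linarith
  have hq : 0 ≤ 1 / p := by positivity
  refine (ENNReal.rpow_le_rpow (upper volume hp hf hs hst ht) hq).trans
    ((ENNReal.rpow_add_le_add_rpow _ _ hq ((div_le_one hp0).2 hp)).trans (add_le_add ?_ le_rfl))
  rw [ENNReal.mul_rpow_of_nonneg _ _ hq, ENNReal.ofReal_rpow_of_nonneg (by positivity) hq,
    finrank_euclideanSpace_fin, ← ENNReal.ofReal_coe_nnreal]
  refine mul_le_mul_left (ENNReal.ofReal_le_ofReal (le_trans (le_of_eq ?_) hA)) _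
  rw [← Real.mul_rpow zero_le_two (Real.exp_pos _).le,
    Real.mul_rpow (by positivity) (by positivity), ← Real.rpow_mul (by positivity),
    mul_one_div_cancel hp0.ne', Real.rpow_one]

theorem lower [NeZero N] [NormedSpace ℝ F] [Nontrivial F] (hp : 1 ≤ p) {θ : ℝ} (h0 : 0 ≤ θ)
    (h1 : θ < 1) (A c : ℝ≥0)
    (h : ∀ s t : ℝ, θ < s → s < t → t < 1 → ∀ f : 𝓢(EuclideanSpace ℝ (Fin N), F),
      X volume p f s ^ (1 / p) ≤
        A * (∫⁻ x, ‖f x‖ₑ ^ p) ^ (1 / p) + c * X volume p f t ^ (1 / p)) : 1 ≤ c := by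
  by_contra hc
  rw [not_le] at hc
  have hp0 : 0 < p := by linarith
  have hq : 0 < 1 / p := by positivity
  obtain ⟨t, ht0, ht1⟩ := exists_between h1
  have ht : 0 < t := h0.trans_lt ht0
  obtain ⟨v, hv⟩ := exists_ne (0 : F)
  have hw : 0 < min t (1 - t) := lt_min ht (by linarith)
  have hV : 0 < volume.real (ball (0 : EuclideanSpace ℝ (Fin N)) 1) :=
    ENNReal.toReal_pos (measure_ball_pos _ _ one_pos).ne' measure_ball_ne_top
  have hn : (0 : ℝ) < finrank ℝ (EuclideanSpace ℝ (Fin N)) := by exact_mod_cast finrank_pos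
  set κ : ℝ := min t (1 - t) * (finrank ℝ (EuclideanSpace ℝ (Fin N)) *
    volume.real (ball (0 : EuclideanSpace ℝ (Fin N)) 1)) / (t * p) with hκ
  have hκ0 : 0 < κ := by positivity
  have hc' : (0 : ℝ) < 1 - c := sub_pos.2 (by exact_mod_cast hc)
  set M : ℝ := (A / (1 - c) + 1) ^ p / κ with hM
  have hM0 : 0 < M := by positivity
  set ρ : ℝ := M ^ (-(t * p)⁻¹) / 2 with hρ
  have hρ0 : 0 < ρ := by positivity
  let b : ContDiffBump (0 : EuclideanSpace ℝ (Fin N)) := ⟨ρ / 2, ρ, by positivity, by linarith⟩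
  have hcs : HasCompactSupport fun x => b x • v := b.hasCompactSupport.smul_right
  have hcd : ContDiff ℝ (⊤ : ℕ∞) fun x => b x • v := b.contDiff.smul contDiff_const
  obtain ⟨K, hK⟩ := hcd.lipschitzWith_of_hasCompactSupport hcs (by simp)
  have hs : ∀ x : EuclideanSpace ℝ (Fin N), ρ ≤ ‖x‖ → b x • v = 0 := fun x hx => by
    rw [b.zero_of_le_dist (by simpa using hx), zero_smul]
  set g : EuclideanSpace ℝ (Fin N) → F := fun x => b x • v with hg
  set L := (∫⁻ x, ‖g x‖ₑ ^ p) with hL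
  have hL1 : L ^ (1 / p) ≠ ∞ := by
    rw [hL, ← norm_eq hp]
    exact (hK.continuous.memLp_of_hasCompactSupport hcs).2.ne
  have hL2 : L ≠ ∞ := fun e => hL1 (by rw [e, ENNReal.top_rpow_of_pos hq])
  have hL0 : L ^ (1 / p) ≠ 0 := by
    rw [hL, ← norm_eq hp, Ne, eLpNorm_eq_zero_iff hK.continuous.aestronglyMeasurable
      (by simp; linarith), hK.continuous.ae_eq_iff_eq volume continuous_zero]
    intro e
    have h2 := congrFun e 0
    rw [hg] at h2
    beta_reduce at h2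
    rw [b.one_of_mem_closedBall (mem_closedBall_self b.rIn_pos.le), one_smul] at h2
    exact hv h2
  have hX := X_ne_top volume hp hK hs hL2 ht ht1
  have h3 : X volume p g t ^ (1 / p) ≤ A * L ^ (1 / p) + c * X volume p g t ^ (1 / p) := by
    rw [one_div, ENNReal.rpow_inv_le_iff hp0]
    refine fatou volume hp hK.continuous hL2 ht0 fun s hs1 hs2 => ?_
    rw [← ENNReal.rpow_inv_le_iff hp0, ← one_div]
    exact h s t hs1 hs2 ht1 (hcs.toSchwartzMap hcd)
  have h4 := ENNReal.rpow_le_rpow (X_ge volume hp hρ0 hs ht ht1) hq.le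
  have h5 : min t (1 - t) * (finrank ℝ (EuclideanSpace ℝ (Fin N)) *
      volume.real (ball (0 : EuclideanSpace ℝ (Fin N)) 1) * ((2 * ρ) ^ (-(t * p)) / (t * p))) =
      (A / (1 - c) + 1) ^ p := by
    rw [hρ, mul_div_cancel₀ _ two_ne_zero, ← Real.rpow_mul hM0.le, neg_mul_neg,
      inv_mul_cancel₀ (by positivity), Real.rpow_one, ← div_mul_cancel₀ ((A / (1 - c) + 1 : ℝ) ^ p)
        hκ0.ne', ← hM, hκ]
    ring
  rw [h5, ENNReal.mul_rpow_of_nonneg _ _ hq.le, ENNReal.ofReal_rpow_of_nonneg (by positivity) hq.le,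
    ← Real.rpow_mul (by positivity), mul_one_div_cancel hp0.ne', Real.rpow_one, ← hL] at h4
  have hY := ENNReal.rpow_ne_top_of_nonneg hq.le hX
  generalize X volume p g t ^ (1 / p) = Y at h3 h4 hY
  generalize L ^ (1 / p) = Z at h3 h4 hL1 hL0
  lift Y to ℝ≥0 using hY
  lift Z to ℝ≥0 using hL1
  have hZ : (0 : ℝ) < Z := by exact_mod_cast pos_iff_ne_zero.2 (ENNReal.coe_ne_zero.1 hL0)
  have h6 : (Y : ℝ) ≤ A * Z + c * Y := by exact_mod_cast h3
  rw [← ENNReal.ofReal_coe_nnreal (p := Z), ← ENNReal.ofReal_mul (by positivity),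
    ENNReal.ofReal_le_coe] at h4
  have h7 := mul_le_mul_of_nonneg_left h4 hc'.le
  rw [← mul_assoc, mul_add, mul_div_cancel₀ _ hc'.ne'] at h7
  nlinarith [mul_pos hc' hZ]

end Pool.Agent.P95ea62
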