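import Mathlib

/-! Exact monotonicity of the local Gagliardo energy in the order. -/

set_option autoImplicit false
set_option linter.unusedSectionVars false

open MeasureTheory Set Metric Module
open scoped ENNReal

namespace Pool.Agent.P95ea62

theorem add_rpow_le {p u A B : ℝ} (hp : 1 ≤ p) (h0 : 0 < u) (h1 : u < 1) (hA : 0 ≤ A)
    (hB : 0 ≤ B) : (A + B) ^ p ≤ u ^ (1 - p) * A ^ p + (1 - u) ^ (1 - p) * B ^ p := by
  have h2 : 0 < 1 - u := by linarith
  have h := (convexOn_rpow hp).2 (x := A / u) (y := B / (1 - u)) (div_nonneg hA h0.le)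
    (div_nonneg hB h2.le) h0.le h2.le (by ring)
  simp only [smul_eq_mul] at h
  rw [mul_div_cancel₀ _ h0.ne', mul_div_cancel₀ _ h2.ne', Real.div_rpow hA h0.le,
    Real.div_rpow hB h2.le] at h
  rw [Real.rpow_sub h0, Real.rpow_sub h2, Real.rpow_one, Real.rpow_one]
  refine h.trans (le_of_eq ?_)
  ring

theorem enorm_rpow_le {F : Type*} [NormedAddCommGroup F] {p u : ℝ} (hp : 1 ≤ p) (h0 : 0 < u)
    (h1 : u < 1) (x y z : F) (h : ‖z‖ ≤ ‖x‖ + ‖y‖) :
    ‖z‖ₑ ^ p ≤ ENNReal.ofReal (u ^ (1 - p)) * ‖x‖ₑ ^ p +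
      ENNReal.ofReal ((1 - u) ^ (1 - p)) * ‖y‖ₑ ^ p := by
  have hp0 : 0 ≤ p := by linarith
  have h2 : 0 < 1 - u := by linarith
  rw [← ofReal_norm, ← ofReal_norm, ← ofReal_norm,
    ENNReal.ofReal_rpow_of_nonneg (norm_nonneg _) hp0,
    ENNReal.ofReal_rpow_of_nonneg (norm_nonneg _) hp0,
    ENNReal.ofReal_rpow_of_nonneg (norm_nonneg _) hp0,
    ← ENNReal.ofReal_mul (by positivity), ← ENNReal.ofReal_mul (by positivity),
    ← ENNReal.ofReal_add (by positivity) (by positivity)]
  exact ENNReal.ofReal_le_ofReal ((Real.rpow_le_rpow (norm_nonneg _) h hp0).trans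
    (add_rpow_le hp h0 h1 (norm_nonneg _) (norm_nonneg _)))

/-- The dual certificate. -/
noncomputable def cert (a b x : ℝ) : ℝ := if x < 1 then (2 - b) * x ^ b - (2 - a) * x ^ a else 0

theorem cert_nonneg {a b x : ℝ} (hab : b ≤ a) (hb : b ≤ 2) (hx : 0 < x) : 0 ≤ cert a b x := by
  unfold cert
  split_ifs with h
  · have h1 : x ^ a ≤ x ^ b := Real.rpow_le_rpow_of_exponent_ge hx h.le hab
    have h2 : 0 ≤ x ^ a := by positivity
    nlinarith [mul_nonneg (sub_nonneg.2 hb) (sub_nonneg.2 h1), mul_nonneg (sub_nonneg.2 hab) h2]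
  · exact le_rfl

theorem measurable_cert (a b : ℝ) : Measurable (cert a b) := by
  unfold cert
  exact Measurable.ite measurableSet_Iio (by fun_prop) measurable_const

theorem lintegral_cert {a b x : ℝ} (hab : b ≤ a) (hb : b ≤ 2) (hx : 0 < x) :
    ∫⁻ u in Ioo (0 : ℝ) 1, ENNReal.ofReal (u * cert a b (x / u)) =
      ENNReal.ofReal (if x < 1 then x ^ b - x ^ a else 0) := by
  split_ifs with h
  · have hs : ∫⁻ u in Ioo (0 : ℝ) 1, ENNReal.ofReal (u * cert a b (x / u)) =
        ∫⁻ u in Ioo x 1, ENNReal.ofReal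
          ((2 - b) * x ^ b * u ^ (1 - b) - (2 - a) * x ^ a * u ^ (1 - a)) := by
      rw [← lintegral_indicator measurableSet_Ioo, ← lintegral_indicator measurableSet_Ioo]
      refine lintegral_congr fun u => ?_
      by_cases hu : u ∈ Ioo x 1
      · have hu0 : 0 < u := hx.trans hu.1
        rw [indicator_of_mem hu, indicator_of_mem (show u ∈ Ioo (0 : ℝ) 1 from ⟨hu0, hu.2⟩), cert,
          if_pos ((div_lt_one hu0).2 hu.1), Real.div_rpow hx.le hu0.le, Real.div_rpow hx.le hu0.le,
          Real.rpow_sub hu0, Real.rpow_sub hu0, Real.rpow_one]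
        congr 1
        ring
      · rw [indicator_of_notMem hu]
        by_cases hv : u ∈ Ioo (0 : ℝ) 1
        · rw [indicator_of_mem hv, cert, if_neg, mul_zero, ENNReal.ofReal_zero]
          exact fun hc => hu ⟨(div_lt_one hv.1).1 hc, hv.2⟩
        · rw [indicator_of_notMem hv]
    have hc : ContinuousOn (fun u : ℝ =>
        (2 - b) * x ^ b * u ^ (1 - b) - (2 - a) * x ^ a * u ^ (1 - a)) (Icc x 1) := by
      refine ContinuousOn.sub (continuousOn_const.mul ?_) (continuousOn_const.mul ?_) <;>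
        exact continuousOn_id.rpow_const fun u hu => Or.inl (hx.trans_le hu.1).ne'
    have hd : ∀ u ∈ uIcc x 1, HasDerivAt (fun u : ℝ => x ^ b * u ^ (2 - b) - x ^ a * u ^ (2 - a))
        ((2 - b) * x ^ b * u ^ (1 - b) - (2 - a) * x ^ a * u ^ (1 - a)) u := by
      intro u hu
      rw [uIcc_of_le h.le] at hu
      have hu0 : u ≠ 0 := (hx.trans_le hu.1).ne'
      have h1 := ((Real.hasDerivAt_rpow_const (p := 2 - b) (Or.inl hu0)).const_mul (x ^ b)).sub
        ((Real.hasDerivAt_rpow_const (p := 2 - a) (Or.inl hu0)).const_mul (x ^ a))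
      refine h1.congr_deriv ?_
      rw [show 2 - b - 1 = 1 - b by ring, show 2 - a - 1 = 1 - a by ring]
      ring
    have hi := intervalIntegral.integral_eq_sub_of_hasDerivAt hd
      (ContinuousOn.intervalIntegrable (by rwa [uIcc_of_le h.le]))
    rw [hs, ← ofReal_integral_eq_lintegral_ofReal
      ((hc.integrableOn_Icc).mono_set Ioo_subset_Icc_self), ← integral_Ioc_eq_integral_Ioo,
      ← intervalIntegral.integral_of_le h.le, hi]
    · congr 1
      rw [Real.one_rpow, Real.one_rpow, ← Real.rpow_add hx, ← Real.rpow_add hx]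
      simp
    · refine (ae_restrict_iff' measurableSet_Ioo).2 (.of_forall fun u hu => ?_)
      have hu0 : 0 < u := hx.trans hu.1
      have h3 := mul_nonneg hu0.le (cert_nonneg hab hb (div_pos hx hu0))
      rw [cert, if_pos ((div_lt_one hu0).2 hu.1), Real.div_rpow hx.le hu0.le,
        Real.div_rpow hx.le hu0.le] at h3
      refine h3.trans (le_of_eq ?_)
      beta_reduce
      rw [Real.rpow_sub hu0, Real.rpow_sub hu0, Real.rpow_one]
      ring
  · rw [ENNReal.ofReal_zero]
    refine (setLIntegral_congr_fun measurableSet_Ioo fun u hu => ?_).trans lintegral_zero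
    rw [cert, if_neg, mul_zero, ENNReal.ofReal_zero]
    exact fun hc => h (((div_lt_one hu.1).1 hc).trans hu.2)

variable {E F : Type*} [NormedAddCommGroup E] [NormedSpace ℝ E] [FiniteDimensional ℝ E]
  [MeasurableSpace E] [BorelSpace E] [NormedAddCommGroup F] (μ : Measure E) [μ.IsAddHaarMeasure]

/-- The `p`-th power of the `L^p` modulus of continuity. -/
noncomputable def W (p : ℝ) (f : E → F) (h : E) : ℝ≥0∞ := ∫⁻ x, ‖f x - f (x + h)‖ₑ ^ p ∂μ

/-- Energy with a radial kernel. -/
noncomputable def I (p : ℝ) (f : E → F) (k : ℝ → ℝ) : ℝ≥0∞ :=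
  ∫⁻ h, W μ p f h * ENNReal.ofReal (k ‖h‖) ∂μ

variable {p : ℝ} {f : E → F}

theorem meas2 (hf : Continuous f) :
    Measurable fun z : E × E => ‖f z.1 - f (z.1 + z.2)‖ₑ ^ p :=
  (Continuous.enorm (by fun_prop)).measurable.pow_const p

theorem measurable_W (hf : Continuous f) : Measurable (W μ p f) :=
  (meas2 hf).lintegral_prod_left'

theorem W_split (hp : 1 ≤ p) (hf : Continuous f) {u : ℝ} (h0 : 0 < u) (h1 : u < 1) (h : E) :
    W μ p f h ≤ ENNReal.ofReal (u ^ (1 - p)) * W μ p f (u • h) +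
      ENNReal.ofReal ((1 - u) ^ (1 - p)) * W μ p f ((1 - u) • h) := by
  have hm : ∀ v : E, Measurable fun x => ‖f x - f (x + v)‖ₑ ^ p := fun v =>
    (Continuous.enorm (by fun_prop)).measurable.pow_const p
  have ht : W μ p f ((1 - u) • h) =
      ∫⁻ x, ‖f (x + u • h) - f (x + u • h + (1 - u) • h)‖ₑ ^ p ∂μ :=
    (lintegral_add_right_eq_self (fun x => ‖f x - f (x + (1 - u) • h)‖ₑ ^ p) (u • h)).symm
  rw [ht, W, W, ← lintegral_const_mul' _ _ ENNReal.ofReal_ne_top,
    ← lintegral_const_mul' _ _ ENNReal.ofReal_ne_top,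
    ← lintegral_add_left ((hm _).const_mul _)]
  refine lintegral_mono fun x => enorm_rpow_le hp h0 h1 _ _ _ ?_
  rw [show x + u • h + (1 - u) • h = x + h by rw [add_assoc, ← add_smul]; simp]
  exact norm_sub_le_norm_sub_add_norm_sub _ _ _

theorem scale (hf : Continuous f) {k : ℝ → ℝ} (hk : Measurable k) {u : ℝ} (h0 : 0 < u) :
    ∫⁻ h, W μ p f (u • h) * ENNReal.ofReal (k ‖h‖) ∂μ =
      ENNReal.ofReal ((u ^ finrank ℝ E)⁻¹) * I μ p f (fun r => k (r / u)) := by
  have hm : Measurable fun h : E => W μ p f h * ENNReal.ofReal (k (‖h‖ / u)) :=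
    (measurable_W μ hf).mul (hk.comp (measurable_norm.div_const u)).ennreal_ofReal
  have h1 := lintegral_map (μ := μ) hm (measurable_const_smul u)
  rw [Measure.map_addHaar_smul μ h0.ne', lintegral_smul_measure,
    abs_of_pos (by positivity), smul_eq_mul] at h1
  rw [I, h1]
  refine lintegral_congr fun h => ?_
  rw [norm_smul, Real.norm_of_nonneg h0.le, mul_div_cancel_left₀ _ h0.ne']

theorem I_congr [Nontrivial E] {k l : ℝ → ℝ} (h : ∀ r, 0 < r → k r = l r) :
    I μ p f k = I μ p f l := by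
  refine lintegral_congr_ae ?_
  filter_upwards [Measure.ae_ne μ (0 : E)] with x hx
  rw [h _ (norm_pos_iff.2 hx)]

theorem I_mono [Nontrivial E] {k l : ℝ → ℝ} (h : ∀ r, 0 < r → k r ≤ l r) :
    I μ p f k ≤ I μ p f l := by
  refine lintegral_mono_ae ?_
  filter_upwards [Measure.ae_ne μ (0 : E)] with x hx
  exact mul_le_mul_right (ENNReal.ofReal_le_ofReal (h _ (norm_pos_iff.2 hx))) _

theorem I_add [Nontrivial E] (hf : Continuous f) {k l : ℝ → ℝ} (hk : Measurable k)
    (h1 : ∀ r, 0 < r → 0 ≤ k r) (h2 : ∀ r, 0 < r → 0 ≤ l r) :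
    I μ p f (fun r => k r + l r) = I μ p f k + I μ p f l := by
  have hm : Measurable fun h : E => W μ p f h * ENNReal.ofReal (k ‖h‖) :=
    (measurable_W μ hf).mul (hk.comp measurable_norm).ennreal_ofReal
  rw [I, I, I, ← lintegral_add_left hm]
  refine lintegral_congr_ae ?_
  filter_upwards [Measure.ae_ne μ (0 : E)] with x hx
  rw [ENNReal.ofReal_add (h1 _ (norm_pos_iff.2 hx)) (h2 _ (norm_pos_iff.2 hx)), mul_add]

theorem I_mul {k : ℝ → ℝ} {c : ℝ} (hc : 0 ≤ c) :
    I μ p f (fun r => c * k r) = ENNReal.ofReal c * I μ p f k := by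
  rw [I, I, ← lintegral_const_mul' _ _ ENNReal.ofReal_ne_top]
  refine lintegral_congr fun x => ?_
  rw [ENNReal.ofReal_mul hc, mul_left_comm]

/-- The averaged splitting inequality. -/
theorem I_le_avg [Nontrivial E] (hp : 1 ≤ p) (hf : Continuous f) {g : ℝ → ℝ} (hg : Measurable g) :
    I μ p f (fun r => r ^ (-(finrank ℝ E + p)) * g r) ≤
      2 * ∫⁻ u in Ioo (0 : ℝ) 1, I μ p f (fun r => r ^ (-(finrank ℝ E + p)) * (u * g (r / u))) := by
  set m : ℝ := -(finrank ℝ E + p) with hm
  set J : ℝ → ℝ≥0∞ := fun u => I μ p f (fun r => r ^ m * (u * g (r / u))) with hJ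
  have hk : Measurable fun r : ℝ => r ^ m * g r := by fun_prop
  have h1 : ∀ u : ℝ, 0 < u → ENNReal.ofReal (u ^ (1 - p)) *
      ∫⁻ h, W μ p f (u • h) * ENNReal.ofReal (‖h‖ ^ m * g ‖h‖) ∂μ = J u := by
    intro u hu
    rw [scale μ hf hk hu, ← I_mul μ (by positivity), ← I_mul μ (by positivity)]
    refine I_congr μ fun r hr => ?_
    have h2 : u ^ (1 - p) * (u ^ finrank ℝ E)⁻¹ = u * u ^ m := by
      rw [← Real.rpow_natCast, ← Real.rpow_neg hu.le, ← Real.rpow_add hu, hm,
        ← Real.rpow_one_add' hu.le ?_]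
      · congr 1
        ring
      · have : (1 : ℝ) ≤ finrank ℝ E := by exact_mod_cast finrank_pos
        linarith
    have h3 : u ^ m ≠ 0 := by positivity
    rw [← mul_assoc, h2, Real.div_rpow hr.le hu.le]
    field_simp
  have h4 : ∀ u ∈ Ioo (0 : ℝ) 1, I μ p f (fun r => r ^ m * g r) ≤ J u + J (1 - u) := by
    intro u hu
    have hq : Measurable fun h : E => ENNReal.ofReal (u ^ (1 - p)) *
        (W μ p f (u • h) * ENNReal.ofReal (‖h‖ ^ m * g ‖h‖)) :=
      (((measurable_W μ hf).comp (measurable_const_smul u)).mul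
        (hk.comp measurable_norm).ennreal_ofReal).const_mul _
    rw [← h1 u hu.1, ← h1 (1 - u) (sub_pos.2 hu.2),
      ← lintegral_const_mul' _ _ ENNReal.ofReal_ne_top,
      ← lintegral_const_mul' _ _ ENNReal.ofReal_ne_top, ← lintegral_add_left hq]
    refine lintegral_mono fun h => ?_
    rw [← mul_assoc, ← mul_assoc, ← add_mul]
    exact mul_le_mul_left (W_split μ hp hf hu.1 hu.2 h) _
  have hJm : Measurable J := by
    refine Measurable.lintegral_prod_right' (ν := μ) (f := fun z : ℝ × E =>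
      W μ p f z.2 * ENNReal.ofReal (‖z.2‖ ^ m * (z.1 * g (‖z.2‖ / z.1)))) ?_
    exact ((measurable_W μ hf).comp measurable_snd).mul (by fun_prop)
  have h5 : ∫⁻ u in Ioo (0 : ℝ) 1, J (1 - u) = ∫⁻ u in Ioo (0 : ℝ) 1, J u := by
    rw [← lintegral_indicator measurableSet_Ioo, ← lintegral_indicator measurableSet_Ioo,
      ← lintegral_sub_left_eq_self ((Ioo (0 : ℝ) 1).indicator J) 1]
    refine lintegral_congr fun u => ?_
    by_cases hu : u ∈ Ioo (0 : ℝ) 1
    · rw [indicator_of_mem hu, indicator_of_mem]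
      exact ⟨sub_pos.2 hu.2, by linarith [hu.1]⟩
    · rw [indicator_of_notMem hu, indicator_of_notMem]
      exact fun hc => hu ⟨by linarith [hc.2], by linarith [hc.1]⟩
  calc I μ p f (fun r => r ^ m * g r)
      = ∫⁻ _u in Ioo (0 : ℝ) 1, I μ p f (fun r => r ^ m * g r) := by simp
    _ ≤ ∫⁻ u in Ioo (0 : ℝ) 1, (J u + J (1 - u)) := setLIntegral_mono' measurableSet_Ioo h4
    _ = _ := by rw [lintegral_add_left hJm, h5, two_mul]

/-- Truncated power kernel. -/
noncomputable def tk (m c r : ℝ) : ℝ := if r < 1 then r ^ m * r ^ c else 0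

theorem measurable_tk (m c : ℝ) : Measurable (tk m c) := by
  unfold tk
  exact Measurable.ite measurableSet_Iio (by fun_prop) measurable_const

theorem tk_nonneg (m c : ℝ) {r : ℝ} (hr : 0 < r) : 0 ≤ tk m c r := by
  unfold tk
  split_ifs <;> positivity

/-- Exact monotonicity. -/
theorem mono [Nontrivial E] (hp : 1 ≤ p) (hf : Continuous f) {a b : ℝ} (h0 : 0 < b) (hab : b ≤ a)
    (hb : b ≤ 2) :
    I μ p f (fun r => a * tk (-(finrank ℝ E + p)) a r) ≤
      I μ p f (fun r => b * tk (-(finrank ℝ E + p)) b r) := by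
  set m : ℝ := -(finrank ℝ E + p) with hm
  have ha : 0 < a := h0.trans_le hab
  have hle : ∀ r, 0 < r → tk m a r ≤ tk m b r := by
    intro r hr
    unfold tk
    split_ifs with h
    · exact mul_le_mul_of_nonneg_left (Real.rpow_le_rpow_of_exponent_ge hr h.le hab)
        (by positivity)
    · exact le_rfl
  have h1 := I_le_avg μ hp hf (measurable_cert a b)
  rw [← hm] at h1
  have h2 : ∫⁻ u in Ioo (0 : ℝ) 1, I μ p f (fun r => r ^ m * (u * cert a b (r / u))) =
      I μ p f (fun r => tk m b r - tk m a r) := by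
    have hc := measurable_cert a b
    unfold I
    rw [lintegral_lintegral_swap (((measurable_W μ hf).comp measurable_snd).mul
      (by fun_prop)).aemeasurable]
    refine lintegral_congr_ae ?_
    filter_upwards [Measure.ae_ne μ (0 : E)] with x hx
    have hr : 0 < ‖x‖ := norm_pos_iff.2 hx
    simp_rw [ENNReal.ofReal_mul (Real.rpow_nonneg hr.le m)]
    rw [lintegral_const_mul _ (by fun_prop), lintegral_const_mul _ (by fun_prop),
      lintegral_cert hab hb hr, ← ENNReal.ofReal_mul (Real.rpow_nonneg hr.le m)]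
    congr 2
    unfold tk
    split_ifs <;> ring
  rw [h2, show (2 : ℝ≥0∞) = ENNReal.ofReal 2 by simp, ← I_mul μ zero_le_two] at h1
  by_cases hfin : I μ p f (tk m b) = ∞
  · rw [I_mul μ h0.le, hfin, ENNReal.mul_top (by simpa using h0)]
    exact le_top
  have h3 : I μ p f (fun r => 2 * (tk m b r - tk m a r)) ≠ ∞ := by
    rw [I_mul μ zero_le_two]
    refine ENNReal.mul_ne_top ENNReal.ofReal_ne_top (ne_top_of_le_ne_top hfin ?_)
    exact I_mono μ fun r hr => by linarith [tk_nonneg m a hr]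
  have hma := measurable_tk m a
  have hmb := measurable_tk m b
  refine (ENNReal.add_le_add_iff_right h3).1 ?_
  refine le_trans (le_of_eq ?_) (add_le_add le_rfl h1)
  rw [← I_add μ hf (by fun_prop) (fun r hr => mul_nonneg ha.le (tk_nonneg m a hr))
      (fun r hr => by linarith [hle r hr]),
    ← I_add μ hf (by fun_prop) (fun r hr => mul_nonneg h0.le (tk_nonneg m b hr))
      (fun r hr => mul_nonneg (by positivity) (cert_nonneg hab hb hr))]
  refine I_congr μ fun r _ => ?_
  unfold tk cert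
  split_ifs <;> ring

end Pool.Agent.P95ea62
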