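import Pool.Agent.P.MP_95ea62_an.Mono

/-! Upper bound with leading constant one, and its sharpness. -/

set_option autoImplicit false
set_option linter.unusedSectionVars false

open MeasureTheory Set Metric Module Filter Topology
open scoped ENNReal NNReal

namespace Pool.Agent.P95ea62

variable {E F : Type*} [NormedAddCommGroup E] [NormedSpace ℝ E] [FiniteDimensional ℝ E]
  [MeasurableSpace E] [BorelSpace E] [Nontrivial E] [NormedAddCommGroup F] (μ : Measure E)
  [μ.IsAddHaarMeasure] {p : ℝ} {f : E → F}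

theorem double_eq (hf : Continuous f) {α : ℝ} :
    ∫⁻ x, ∫⁻ y, ‖f x - f y‖ₑ ^ p / ‖x - y‖ₑ ^ α ∂μ ∂μ = I μ p f (fun r => r ^ (-α)) := by
  have h1 : ∀ x, ∫⁻ y, ‖f x - f y‖ₑ ^ p / ‖x - y‖ₑ ^ α ∂μ =
      ∫⁻ h, ‖f x - f (x + h)‖ₑ ^ p * ENNReal.ofReal (‖h‖ ^ (-α)) ∂μ := by
    intro x
    rw [← lintegral_add_left_eq_self _ x]
    refine lintegral_congr_ae ?_
    filter_upwards [Measure.ae_ne μ (0 : E)] with h hh
    have hr : 0 < ‖h‖ := norm_pos_iff.2 hh
    rw [sub_add_cancel_left, enorm_neg, div_eq_mul_inv, ← ofReal_norm h,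
      ENNReal.ofReal_rpow_of_pos hr, ← ENNReal.ofReal_inv_of_pos (by positivity),
      Real.rpow_neg hr.le]
  simp_rw [h1]
  have hm : Measurable (Function.uncurry fun x h : E =>
      ‖f x - f (x + h)‖ₑ ^ p * ENNReal.ofReal (‖h‖ ^ (-α))) := (meas2 hf).mul (by fun_prop)
  rw [lintegral_lintegral_swap hm.aemeasurable]
  exact lintegral_congr fun h => lintegral_mul_const' _ _ ENNReal.ofReal_ne_top

/-- Tail kernel. -/
noncomputable def tl (R α r : ℝ) : ℝ := if R ≤ r then r ^ (-α) else 0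

theorem measurable_tl (R α : ℝ) : Measurable (tl R α) := by
  unfold tl
  exact Measurable.ite measurableSet_Ici (by fun_prop) measurable_const

theorem tl_nonneg (R α : ℝ) {r : ℝ} (hr : 0 ≤ r) : 0 ≤ tl R α r := by
  unfold tl
  split_ifs <;> positivity

theorem tail {R c : ℝ} (hR : 0 < R) (hc : 0 < c) :
    ∫⁻ h : E, ENNReal.ofReal (tl R (finrank ℝ E + c) ‖h‖) ∂μ =
      ENNReal.ofReal (finrank ℝ E * μ.real (ball 0 1) * (R ^ (-c) / c)) := by
  have h1 : ∀ y ∈ Ioi (0 : ℝ), y ^ (finrank ℝ E - 1) • tl R (finrank ℝ E + c) y =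
      (Ici R).indicator (fun y => y ^ (-c - 1)) y := by
    intro y hy
    have hy' : 0 < y := hy
    by_cases h : R ≤ y
    · rw [tl, if_pos h, indicator_of_mem (show y ∈ Ici R from h), smul_eq_mul, ← Real.rpow_natCast,
        ← Real.rpow_add hy', Nat.cast_sub finrank_pos]
      congr 1
      push_cast
      ring
    · rw [tl, if_neg h, indicator_of_notMem (show y ∉ Ici R from h), smul_zero]
  have h2 : IntegrableOn (fun y : ℝ => y ^ (-c - 1)) (Ici R) :=
    (integrableOn_Ici_iff_integrableOn_Ioi (by simp)).2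
      (integrableOn_Ioi_rpow_of_lt (by linarith) hR)
  have h3 : Integrable (fun h : E => tl R (finrank ℝ E + c) ‖h‖) μ := by
    rw [integrable_fun_norm_addHaar μ, integrableOn_congr_fun h1 measurableSet_Ioi]
    exact ((integrable_indicator_iff measurableSet_Ici).2 h2).integrableOn
  rw [← ofReal_integral_eq_lintegral_ofReal h3 (.of_forall fun h => tl_nonneg _ _ (norm_nonneg h)),
    integral_fun_norm_addHaar μ, setIntegral_congr_fun measurableSet_Ioi h1,
    setIntegral_indicator measurableSet_Ici, inter_eq_right.2 (Ici_subset_Ioi.2 hR),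
    integral_Ici_eq_integral_Ioi, integral_Ioi_rpow_of_lt (by linarith) hR,
    show -c - 1 + 1 = -c by ring, neg_div_neg_eq, nsmul_eq_mul, smul_eq_mul, mul_assoc]

theorem W_le (hp : 1 ≤ p) (hf : Continuous f) (h : E) :
    W μ p f h ≤ ENNReal.ofReal (2 ^ p) * ∫⁻ x, ‖f x‖ₑ ^ p ∂μ := by
  have hm : Measurable fun x => ENNReal.ofReal ((1 / 2 : ℝ) ^ (1 - p)) * ‖f x‖ₑ ^ p :=
    (hf.enorm.measurable.pow_const p).const_mul _
  refine (lintegral_mono fun x => enorm_rpow_le hp (u := 1 / 2) (by norm_num) (by norm_num)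
    (f x) (f (x + h)) _ (norm_sub_le _ _)).trans (le_of_eq ?_)
  rw [lintegral_add_left hm, lintegral_const_mul' _ _ ENNReal.ofReal_ne_top,
    lintegral_const_mul' _ _ ENNReal.ofReal_ne_top,
    lintegral_add_right_eq_self (fun x => ‖f x‖ₑ ^ p) h, ← add_mul,
    ← ENNReal.ofReal_add (by positivity) (by positivity), show (1 - 1 / 2 : ℝ) = 1 / 2 by norm_num,
    one_div, Real.inv_rpow zero_le_two, Real.rpow_sub two_pos, Real.rpow_one]
  congr 2
  have : (2 : ℝ) ^ p ≠ 0 := by positivity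
  field_simp
  ring

theorem far (hp : 1 ≤ p) (hf : Continuous f) {R c : ℝ} (hR : 0 < R) (hc : 0 < c) :
    I μ p f (tl R (finrank ℝ E + c)) ≤ ENNReal.ofReal (2 ^ p * (finrank ℝ E * μ.real (ball 0 1) *
      (R ^ (-c) / c))) * ∫⁻ x, ‖f x‖ₑ ^ p ∂μ := by
  have hm : Measurable fun h : E => ENNReal.ofReal (tl R (finrank ℝ E + c) ‖h‖) :=
    ((measurable_tl _ _).comp measurable_norm).ennreal_ofReal
  refine (lintegral_mono fun h => mul_le_mul_left (W_le μ hp hf h) _).trans (le_of_eq ?_)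
  rw [lintegral_const_mul _ hm, tail μ hR hc, ENNReal.ofReal_mul (p := 2 ^ p) (by positivity)]
  ring

theorem small_radius {a b r : ℝ} (hb : 2 ≤ b) (hab : b ≤ a) (hr : 0 < r)
    (h : r < Real.exp (-(1 / 2))) : a * r ^ a ≤ b * r ^ b := by
  have h1 : r ^ (a - b) ≤ Real.exp (-(1 / 2) * (a - b)) := by
    rw [Real.exp_mul]
    exact Real.rpow_le_rpow hr.le h.le (by linarith)
  have h2 : a * Real.exp (-(1 / 2) * (a - b)) ≤ b := by
    rw [neg_mul, Real.exp_neg, ← div_eq_mul_inv, div_le_iff₀ (Real.exp_pos _)]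
    have := Real.add_one_le_exp (1 / 2 * (a - b))
    nlinarith
  have h3 : r ^ a = r ^ (a - b) * r ^ b := by rw [← Real.rpow_add hr, sub_add_cancel]
  rw [h3, ← mul_assoc]
  exact mul_le_mul_of_nonneg_right
    ((mul_le_mul_of_nonneg_left h1 (by linarith)).trans h2) (by positivity)

/-- The weighted energy. -/
noncomputable def X (p : ℝ) (f : E → F) (s : ℝ) : ℝ≥0∞ :=
  I μ p f fun r => min s (1 - s) * r ^ (-(finrank ℝ E + s * p))

theorem upper (hp : 1 ≤ p) (hf : Continuous f) {s t : ℝ} (hs : 0 < s) (hst : s < t) (ht : t < 1) :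
    X μ p f s ≤ ENNReal.ofReal (2 ^ p * Real.exp (1 / 2) ^ p *
      (finrank ℝ E * μ.real (ball 0 1) / p)) * (∫⁻ x, ‖f x‖ₑ ^ p ∂μ) + X μ p f t := by
  set n : ℝ := ((finrank ℝ E : ℕ) : ℝ) with hn
  set R := Real.exp (-(1 / 2)) with hRd
  have hp0 : 0 < p := by linarith
  have hR : 0 < R := Real.exp_pos _
  have hR1 : R ≤ 1 := Real.exp_le_one_iff.2 (by norm_num)
  have hw : 0 ≤ min s (1 - s) := le_min hs.le (by linarith)
  have hwt : 0 ≤ min t (1 - t) := le_min (by linarith) (by linarith)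
  have hk : ∀ c r : ℝ, 0 < r → r ^ (-(n + c * p)) = r ^ (-(n + p)) * r ^ (p * (1 - c)) := by
    intro c r hr
    rw [← Real.rpow_add hr]
    congr 1
    ring
  have hab : p * (1 - t) ≤ p * (1 - s) := by nlinarith
  have key : ∃ k : ℝ → ℝ, (∀ r, 0 < r → 0 ≤ k r) ∧ I μ p f k ≤ X μ p f t ∧
      ∀ r, 0 < r → r < R → min s (1 - s) * r ^ (-(n + s * p)) ≤ k r := by
    by_cases hc : 1 / 2 ≤ t ∧ p * (1 - t) ≤ 2
    · refine ⟨fun r => p⁻¹ * (p * (1 - s) * tk (-(n + p)) (p * (1 - s)) r), fun r hr => ?_, ?_,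
        fun r hr h => ?_⟩
      · have := tk_nonneg (-(n + p)) (p * (1 - s)) hr
        have : 0 ≤ 1 - s := by linarith
        positivity
      · rw [I_mul μ (by positivity)]
        refine (mul_le_mul_right (mono μ hp hf (by nlinarith) hab hc.2) _).trans ?_
        rw [← I_mul μ (by positivity)]
        refine I_mono μ fun r hr => ?_
        rw [min_eq_right (by linarith [hc.1]), hk t r hr, ← mul_assoc, ← mul_assoc,
          inv_mul_cancel₀ hp0.ne', one_mul, tk]
        refine mul_le_mul_of_nonneg_left ?_ (by linarith)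
        split_ifs
        · exact le_rfl
        · positivity
      · beta_reduce
        rw [← mul_assoc, ← mul_assoc, inv_mul_cancel₀ hp0.ne', one_mul, tk,
          if_pos (h.trans_le hR1), hk s r hr]
        exact mul_le_mul_of_nonneg_right (min_le_right _ _) (by positivity)
    · refine ⟨_, fun r hr => by positivity, le_rfl, fun r hr h => ?_⟩
      by_cases h2 : 1 / 2 ≤ t
      · have h3 := small_radius (not_le.1 fun h => hc ⟨h2, h⟩).le hab hr h
        rw [min_eq_right (show 1 - t ≤ t by linarith), hk s r hr, hk t r hr]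
        refine (mul_le_mul_of_nonneg_right (min_le_right _ _) (by positivity)).trans ?_
        rw [mul_left_comm, mul_left_comm (1 - t)]
        refine mul_le_mul_of_nonneg_left (le_of_mul_le_mul_left ?_ hp0) (by positivity)
        rwa [← mul_assoc, ← mul_assoc]
      · rw [min_eq_left (show t ≤ 1 - t by linarith)]
        refine mul_le_mul ((min_le_left _ _).trans hst.le) ?_ (by positivity) (by linarith)
        exact Real.rpow_le_rpow_of_exponent_ge hr (h.le.trans hR1) (by nlinarith)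
  obtain ⟨k, hk0, hk1, hk2⟩ := key
  have hm := measurable_tl R (n + s * p)
  have h1 : X μ p f s ≤ I μ p f fun r => s * tl R (n + s * p) r + k r := by
    refine I_mono μ fun r hr => ?_
    by_cases h : R ≤ r
    · rw [tl, if_pos h]
      exact le_add_of_le_of_nonneg
        (mul_le_mul_of_nonneg_right (min_le_left _ _) (by positivity)) (hk0 r hr)
    · rw [tl, if_neg h, mul_zero, zero_add]
      exact hk2 r hr (not_le.1 h)
  rw [I_add μ hf (by fun_prop) (fun r hr => mul_nonneg hs.le (tl_nonneg _ _ hr.le)) hk0,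
    I_mul μ hs.le] at h1
  refine h1.trans (add_le_add ?_ hk1)
  refine (mul_le_mul_right (far μ hp hf hR (mul_pos hs hp0)) _).trans ?_
  rw [← mul_assoc, ← ENNReal.ofReal_mul hs.le]
  refine mul_le_mul_left (ENNReal.ofReal_le_ofReal ?_) _
  have h2 : R ^ (-(s * p)) ≤ Real.exp (1 / 2) ^ p := by
    rw [hRd, ← Real.exp_mul, ← Real.exp_mul]
    exact Real.exp_le_exp.2 (by nlinarith)
  have h3 : 0 ≤ 2 ^ p * (n * μ.real (ball 0 1) / p) := by positivity
  refine le_trans (le_of_eq ?_) ((mul_le_mul_of_nonneg_left h2 h3).trans (le_of_eq (by ring)))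
  rw [← hn]
  field_simp

theorem fatou (hp : 1 ≤ p) (hf : Continuous f) (hL : ∫⁻ x, ‖f x‖ₑ ^ p ∂μ ≠ ∞) {θ t : ℝ}
    (h : θ < t) {B : ℝ≥0∞} (hB : ∀ s, θ < s → s < t → X μ p f s ≤ B) : X μ p f t ≤ B := by
  obtain ⟨u, -, hu, hl⟩ := exists_seq_strictMono_tendsto' h
  have hm : ∀ s : ℝ, Measurable fun h : E => W μ p f h *
      ENNReal.ofReal (min s (1 - s) * ‖h‖ ^ (-(finrank ℝ E + s * p))) :=
    fun s => (measurable_W μ hf).mul (by fun_prop)
  refine le_trans (lintegral_mono_ae ?_) ((lintegral_liminf_le (μ := μ) fun j => hm (u j)).trans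
    (liminf_le_of_frequently_le' (Frequently.of_forall (f := atTop)
      fun j => hB _ (hu j).1 (hu j).2)))
  filter_upwards [Measure.ae_ne μ (0 : E)] with x hx
  refine (Tendsto.liminf_eq ?_).ge
  refine ENNReal.Tendsto.const_mul (ENNReal.tendsto_ofReal ?_) (Or.inr ?_)
  · refine (hl.min (hl.const_sub 1)).mul ?_
    exact tendsto_const_nhds.rpow ((hl.mul_const p).const_add _).neg (Or.inl (norm_ne_zero_iff.2 hx))
  · exact ne_top_of_le_ne_top (ENNReal.mul_ne_top ENNReal.ofReal_ne_top hL) (W_le μ hp hf x)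

theorem X_ne_top (hp : 1 ≤ p) {K : ℝ≥0} (hK : LipschitzWith K f) {ρ : ℝ}
    (hs : ∀ x, ρ ≤ ‖x‖ → f x = 0) (hL : ∫⁻ x, ‖f x‖ₑ ^ p ∂μ ≠ ∞) {t : ℝ} (h0 : 0 < t)
    (h1 : t < 1) : X μ p f t ≠ ∞ := by
  have hp0 : 0 < p := by linarith
  have hf := hK.continuous
  set n : ℝ := ((finrank ℝ E : ℕ) : ℝ) with hn
  rw [X, I_mul μ (le_min h0.le (by linarith))]
  refine ENNReal.mul_ne_top ENNReal.ofReal_ne_top ?_
  have h2 : I μ p f (fun r => r ^ (-(n + t * p))) =
      I μ p f fun r => tl 1 (n + t * p) r + tk (-(n + t * p)) 0 r := by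
    refine I_congr μ fun r _ => ?_
    by_cases h : 1 ≤ r
    · rw [tl, tk, if_pos h, if_neg (not_lt.2 h), add_zero]
    · rw [tl, tk, if_neg h, if_pos (not_le.1 h), zero_add, Real.rpow_zero, mul_one]
  rw [h2, I_add μ hf (measurable_tl _ _) (fun r hr => tl_nonneg _ _ hr.le)
    fun r hr => tk_nonneg _ _ hr]
  refine ENNReal.add_ne_top.2 ⟨ne_top_of_le_ne_top (ENNReal.mul_ne_top ENNReal.ofReal_ne_top hL)
    (far μ hp hf one_pos (mul_pos h0 hp0)), ?_⟩
  have h3 : IntegrableOn (fun h : E => ‖h‖ ^ (-(n + t * p - p))) (ball 0 1) μ :=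
    integrableOn_ball_of_norm_le_rpow finrank_pos (C := 1) (α := n + t * p - p) (by nlinarith)
      (.of_forall fun x => by rw [one_mul, Real.norm_of_nonneg (by positivity)])
      (Measurable.aestronglyMeasurable (by fun_prop))
  have h4 : ∀ h : E, ‖h‖ < 1 → W μ p f h ≤
      ENNReal.ofReal ((K * ‖h‖) ^ p) * μ (ball 0 (ρ + 1)) := by
    intro h hh
    rw [← lintegral_indicator_const measurableSet_ball]
    refine lintegral_mono fun x => ?_
    by_cases hx : x ∈ ball (0 : E) (ρ + 1)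
    · rw [indicator_of_mem hx, ← ENNReal.ofReal_rpow_of_nonneg (by positivity) hp0.le,
        ← ofReal_norm]
      refine ENNReal.rpow_le_rpow (ENNReal.ofReal_le_ofReal ?_) hp0.le
      simpa using hK.norm_sub_le x (x + h)
    · rw [mem_ball_zero_iff, not_lt] at hx
      have h5 := norm_add_le (x + h) (-h)
      rw [add_neg_cancel_right, norm_neg] at h5
      beta_reduce
      rw [hs x (by linarith), hs (x + h) (by linarith)]
      simp [hp0]
  refine ne_top_of_le_ne_top (ENNReal.mul_ne_top (ENNReal.mul_ne_top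
    (ENNReal.ofReal_ne_top (r := (K : ℝ) ^ p)) (measure_ball_ne_top (μ := μ) (x := (0 : E))
      (r := ρ + 1))) h3.2.ne) ?_
  rw [← lintegral_const_mul' _ _ (ENNReal.mul_ne_top ENNReal.ofReal_ne_top measure_ball_ne_top),
    ← lintegral_indicator measurableSet_ball]
  refine lintegral_mono_ae ?_
  filter_upwards [Measure.ae_ne μ (0 : E)] with x hx
  have hr : 0 < ‖x‖ := norm_pos_iff.2 hx
  by_cases h : ‖x‖ < 1
  · rw [indicator_of_mem (mem_ball_zero_iff.2 h), tk, if_pos h, Real.rpow_zero, mul_one]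
    refine (mul_le_mul_left (h4 x h) _).trans (le_of_eq ?_)
    rw [Real.enorm_eq_ofReal (by positivity), Real.mul_rpow K.coe_nonneg hr.le,
      ENNReal.ofReal_mul (by positivity), show -(n + t * p - p) = p + -(n + t * p) by ring,
      Real.rpow_add hr, ENNReal.ofReal_mul (by positivity)]
    ring
  · rw [tk, if_neg h, ENNReal.ofReal_zero, mul_zero]
    exact bot_le

theorem X_ge (hp : 1 ≤ p) {ρ : ℝ} (hρ : 0 < ρ) (hs : ∀ x, ρ ≤ ‖x‖ → f x = 0) {t : ℝ} (h0 : 0 < t)
    (h1 : t < 1) : ENNReal.ofReal (min t (1 - t) * (finrank ℝ E * μ.real (ball 0 1) *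
      ((2 * ρ) ^ (-(t * p)) / (t * p)))) * ∫⁻ x, ‖f x‖ₑ ^ p ∂μ ≤ X μ p f t := by
  have hp0 : 0 < p := by linarith
  have hw : 0 ≤ min t (1 - t) := le_min h0.le (by linarith)
  have hm : Measurable fun h : E => ENNReal.ofReal (tl (2 * ρ) (finrank ℝ E + t * p) ‖h‖) :=
    ((measurable_tl _ _).comp measurable_norm).ennreal_ofReal
  rw [X, I_mul μ hw, ENNReal.ofReal_mul hw, mul_assoc, ← tail μ (by positivity) (by positivity),
    ← lintegral_mul_const _ hm]
  refine mul_le_mul_right (lintegral_mono fun h => ?_) _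
  by_cases hh : 2 * ρ ≤ ‖h‖
  · rw [tl, if_pos hh, mul_comm]
    refine mul_le_mul_left (lintegral_mono fun x => ?_) _
    by_cases hx : ρ ≤ ‖x‖
    · beta_reduce
      rw [hs x hx]
      simp [hp0]
    · have h5 := norm_add_le (x + h) (-x)
      rw [add_neg_cancel_comm, norm_neg] at h5
      beta_reduce
      rw [hs (x + h) (by linarith), sub_zero]
  · rw [tl, if_neg hh, ENNReal.ofReal_zero, zero_mul]
    exact bot_le

end Pool.Agent.P95ea62
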